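import Pool.Agent.helper36.NF.SpecB

set_option autoImplicit false

open Polynomial Filter FirstOrder FirstOrder.Language

namespace Pool.Agent.NoFormula

lemma FOQb_num {α : Type} (v : α → ℤ) (n : ℕ) : (tNum n : Lx.Term α).realize v = n := by
  induction n with
  | zero => rfl
  | succ n ih =>
    have : (tNum (n + 1) : Lx.Term α).realize v = (tNum n : Lx.Term α).realize v + 1 := rfl
    rw [this, ih]; push_cast; ring

lemma FOQb_lt {α : Type} {n : ℕ} (x y : Lx.Term (α ⊕ Fin n)) (v : α → ℤ) (xs : Fin n → ℤ) :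
    (fLt x y).Realize v xs ↔ x.realize (Sum.elim v xs) < y.realize (Sum.elim v xs) := Iff.rfl

lemma FOQb_add {α : Type} (x y : Lx.Term α) (v : α → ℤ) :
    (tAdd x y).realize v = x.realize v + y.realize v := rfl

lemma FOQb_mul {α : Type} (x y : Lx.Term α) (v : α → ℤ) :
    (tMul x y).realize v = x.realize v * y.realize v := rfl

lemma FOQb_pow {α : Type} (x : Lx.Term α) (v : α → ℤ) :
    (tPow x).realize v = 2 ^ (x.realize v).toNat := rfl

lemma FOQb_tone {α : Type} (v : α → ℤ) : (tOne : Lx.Term α).realize v = 1 := rfl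

lemma FOQb_one (N : ℕ) : ℤ ⊨ compositeFrom N ↔ ∀ m : ℤ, (N : ℤ) ≤ m → ∃ x y : ℤ, 1 < x ∧ 1 < y ∧
    x * y = 2 ^ ((2 : ℤ) ^ m.toNat).toNat + 1 := by
  have key : ℤ ⊨ compositeFrom N ↔ ∀ m : ℤ, ¬ (m < N) → ∃ x y : ℤ, ((1 < x ∧ 1 < y) ∧
      x * y = 2 ^ ((2 : ℤ) ^ m.toNat).toNat + 1) := by
    unfold compositeFrom Sentence.Realize Formula.Realize
    simp only [BoundedFormula.realize_all, BoundedFormula.realize_imp, BoundedFormula.realize_not,
      BoundedFormula.realize_ex, BoundedFormula.realize_inf, BoundedFormula.realize_bdEqual,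
      FOQb_lt, FOQb_add, FOQb_mul, FOQb_pow, FOQb_tone, FOQb_num, Term.realize_var, Sum.elim_inr]
    rfl
  rw [key]
  simp only [not_lt, and_assoc]

theorem FOQb : FOQ_stmt := by
  refine ⟨FOQb_one, ?_⟩
  rw [FOQb_one]
  constructor
  · intro h m hp
    by_contra hm
    obtain ⟨x, y, hx, hy, hxy⟩ := h m (by push_cast; omega)
    have h2 : ((2 : ℤ) ^ ((m : ℤ)).toNat).toNat = 2 ^ m := by
      rw [Int.toNat_natCast]
      have : ((2 : ℤ) ^ m) = ((2 ^ m : ℕ) : ℤ) := by push_cast; rfl
      rw [this, Int.toNat_natCast]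
    rw [h2] at hxy
    have h3 : x.toNat * y.toNat = Nat.fermatNumber m := by
      have : ((x.toNat * y.toNat : ℕ) : ℤ) = ((Nat.fermatNumber m : ℕ) : ℤ) := by
        push_cast
        rw [Int.toNat_of_nonneg (by omega), Int.toNat_of_nonneg (by omega), hxy]
        unfold Nat.fermatNumber
        push_cast
        rfl
      exact_mod_cast this
    rw [← h3] at hp
    exact Nat.not_prime_mul (by omega) (by omega) hp
  · intro h m hm
    obtain ⟨k, rfl⟩ : ∃ k : ℕ, m = k := ⟨m.toNat, by rw [Int.toNat_of_nonneg (by push_cast at hm; omega)]⟩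
    have hk : 5 ≤ k := by push_cast at hm; omega
    have hnp : ¬ Nat.Prime (Nat.fermatNumber k) := fun hp => by
      have := h k hp
      omega
    have h1 : 2 ≤ Nat.fermatNumber k := by
      have := Nat.three_le_fermatNumber k
      omega
    obtain ⟨a, ha1, ha2⟩ := Nat.exists_dvd_of_not_prime2 h1 hnp
    obtain ⟨ha3, ha4⟩ := ha2
    obtain ⟨b, hb⟩ := ha1
    have hb1 : 1 < b := by
      by_contra hb1
      have : b = 0 ∨ b = 1 := by omega
      rcases this with rfl | rfl
      · omega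
      · omega
    refine ⟨a, b, by exact_mod_cast (by omega : 1 < a), by exact_mod_cast hb1, ?_⟩
    have h2 : ((2 : ℤ) ^ ((k : ℤ)).toNat).toNat = 2 ^ k := by
      rw [Int.toNat_natCast]
      have : ((2 : ℤ) ^ k) = ((2 ^ k : ℕ) : ℤ) := by push_cast; rfl
      rw [this, Int.toNat_natCast]
    rw [h2]
    have h5 : ((a * b : ℕ) : ℤ) = ((Nat.fermatNumber k : ℕ) : ℤ) := by rw [hb]
    unfold Nat.fermatNumber at h5
    push_cast at h5
    exact h5

end Pool.Agent.NoFormula
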