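import Pool.Agent.helper36.NF.SpecB

/-!
# No formula for a divisor of a Fermat number: quotients of two formulas

FINAL THEOREM (row FN3): a finite list of pairs `(u, v)`; each pair consists of two sequences which are
eventually given by formulas, or of two sequences periodic modulo all powers of all large primes. Every
arithmetic progression contains an arithmetic progression of indices `m` at which no quotient `v m / u m` is a
divisor of `F m` other than `1, -1, F m, - F m`.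

PLAN. If `s * D = t` with `t, s` in a level and `D` divides `F m`, then the terms of size comparable with the largest term of `s`
(up to a factor `2 ^ O(2 ^ m)`) must match exactly (QEX): `h * D = g` with `g, h` polynomials in `X = 2 ^ (2 ^ (m - J))` with small
coefficients (GR2). Pseudo division of `g` by `h` over the ring of the single exponential sequences gives `u * D = q (X)` (RED). If the degree
of `q` is positive then `q = const * (x ^ (2 ^ J) + 1)` and `F m / D` is a quotient of two single exponential sequences (PO2); if it is zero, `D` is.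
For such quotients: a prime `q` dividing `D` at `m1` and valuations modulo a power of `q` (KI2).
-/

set_option autoImplicit false

open Polynomial Filter

namespace Pool.Agent.NoFormula

/-- sums of `p (m) * 2 ^ (c * 2 ^ (m - J) + Q (m))` -/
def XP (J : ℕ) (g : ℕ → ℤ) : Prop :=
  ∃ L : List (ℤ[X] × ℕ × ℤ[X]),
    (∀ x ∈ L, ∀ᶠ m : ℕ in atTop, 0 ≤ (x.2.1 : ℤ) * 2 ^ (m - J) + x.2.2.eval (m : ℤ)) ∧
    ∀ᶠ m : ℕ in atTop, g m = (L.map (fun x => x.1.eval (m : ℤ) *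
      2 ^ ((x.2.1 : ℤ) * 2 ^ (m - J) + x.2.2.eval (m : ℤ)).toNat)).sum

/-- **SEC** (40) the single exponential sequences: ring, dichotomy, growth.
Proof. Closure: as in LVA (append the lists; product list; exponents add). A single exponential sequence is in `Lev 1` (exponents are polynomials, `Lev 0`), so DCH gives
eventually `0` or eventually nonzero (an unbounded one is eventually nonzero). Growth: `|Q (m)| ≤ m ^ K0` for the finitely many exponents, `|p (m)| ≤ 2 ^ m`, so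
`|f m| ≤ length * 2 ^ m * 2 ^ (m ^ K0) ≤ 2 ^ (m ^ K)`, `K = K0 + 2`. The last clause: the sequences `2 ^ (m ^ K)`. -/
def SEC_stmt : Prop :=
  (∀ f g, SingleExp f → SingleExp g → SingleExp (fun m => f m + g m)) ∧
  (∀ f, SingleExp f → SingleExp (fun m => - f m)) ∧
  (∀ f g, SingleExp f → SingleExp g → SingleExp (fun m => f m * g m)) ∧
  (∀ c : ℤ, SingleExp (fun _ => c)) ∧
  (∀ f g, SingleExp f → (∀ᶠ m : ℕ in atTop, f m = g m) → SingleExp g) ∧
  (∀ f, SingleExp f → (∀ᶠ m : ℕ in atTop, f m = 0) ∨ ∀ᶠ m : ℕ in atTop, f m ≠ 0) ∧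
  (∀ f, SingleExp f → ∃ K : ℕ, ∀ᶠ m : ℕ in atTop, |f m| ≤ 2 ^ (m ^ K)) ∧
  ∀ K : ℕ, SingleExp (fun m => 2 ^ (m ^ K))

/-- **QEX** (70) matching of the leading terms in `s * D = t`.
Proof. `k = 0`: `t, s` are polynomials; `s = 0`: first alternative; otherwise the third with `g = t, h = s, J = 0` (one term, exponent `0`).
`k + 1`: normal forms (NRM, DCH) `t = sm Lt`, `s = sm Ls` eventually. `Ls = []`: first alternative. `Ls = x0 :: _`, `h1 = x0.2`. By DOM and `|x0.1 (m)| ≥ 1`: `2 |s| ≥ 2 ^ h1` eventually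
(so `s ≠ 0`). `Lt = []`: `t = 0`, so `D = 0`, which does not divide `F`: second alternative. `Lt = y0 :: _`.
For an exponent `z` of `Ls` or `Lt` let `δ = z - h1` (in `Lev k`). Claim: (i) there is `A` with eventually `|δ| ≤ A 2 ^ m`, or (ii) for all `A` eventually `δ ≥ A 2 ^ m`, or (iii) for
all `A` eventually `δ ≤ - A 2 ^ m`. (`k = 0`: `δ` is a polynomial, (i). `k ≥ 1`: `δ - A 2 ^ m` and `δ + A 2 ^ m` are in `Lev k`, since `2 ^ m` is in `Lev 1` and LVA; DCH: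
each is eventually `≥ 0` or eventually `< 0`.) For `z` in `Ls`, `z ≤ h1` eventually, so (ii) does not occur. If `y0` is of type (ii): `2 |t| ≥ 2 ^ (y0.2)` (DOM), `|s| ≤ 2 ^ (h1 + m)` eventually, so
`|t| > |s| * F m`: second alternative (`D ≠ 0`, `|D| ≤ F m`). Otherwise no exponent of `Lt` is of type (ii) (all are eventually `≤ y0.2`). Let `S0, T0` be the sublists of type (i), `A0 : ℕ` with
`|δ| ≤ A0 2 ^ m` for all of them, `h m = ∑_(z ∈ S0) z.1 (m) * 2 ^ (δ_z m + A0 2 ^ m).toNat`, `g` the same with `T0`. By SML (applied to `δ_z + A0 2 ^ m`, in `Lev (max k 1)`)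
and one common `J` both are `XP J` (the constant in front of `2 ^ (m - J)` is `≥ 0` since the exponent is eventually `≥ 0`). With `τs, τt` the sums of the terms of type (iii):
`2 ^ (A0 2 ^ m) s = 2 ^ h1 h + 2 ^ (A0 2 ^ m) τs`, the same for `t`, and `|τs|, |τt| ≤ 2 ^ h1 / 2 ^ ((A0 + 3) 2 ^ m)` eventually (type (iii) with `A = A0 + 4`, polynomials at most `2 ^ m`; state it
as `2 ^ ((A0 + 3) 2 ^ m) |τ| ≤ 2 ^ h1`). If `s D = t`, `D ∣ F m`: `2 ^ h1 |h D - g| = 2 ^ (A0 2 ^ m) |τt - D τs| < 2 ^ h1`, so `h D = g`. `h ≠ 0` eventually since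
`2 ^ h1 |h| ≥ 2 ^ (A0 2 ^ m) (|s| - |τs|) > 0`. -/
def QEX_stmt : Prop :=
  ∀ (k : ℕ) (t s : ℕ → ℤ), Lev k t → Lev k s →
    (∀ᶠ m : ℕ in atTop, s m = 0) ∨
    (∀ᶠ m : ℕ in atTop, ∀ D : ℤ, s m * D = t m → ¬ (D ∣ 2 ^ (2 ^ m) + 1)) ∨
    ∃ (J : ℕ) (g h : ℕ → ℤ), XP J g ∧ XP J h ∧ (∀ᶠ m : ℕ in atTop, h m ≠ 0) ∧
      ∀ᶠ m : ℕ in atTop, ∀ D : ℤ, s m * D = t m → D ∣ 2 ^ (2 ^ m) + 1 → h m * D = g m

/-- **GR2** (40) grouping by powers of `X = 2 ^ (2 ^ (m - J))`.
Proof. Let `K0` be such that eventually `|Q (m)| ≤ m ^ K0` for all third entries of the list; `K ≥ K0`; `n` the maximum of the `x.2.1`,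
`B c m = ∑_{x ∈ L, x.2.1 = c} x.1 (m) * 2 ^ (m ^ K + Q m).toNat`, which is single exponential (exponent polynomial `X ^ K + Q`, eventually `≥ 0`). Since
`c 2 ^ (m - J) + Q m ≥ 0` eventually, `2 ^ (m ^ K) * 2 ^ (c 2 ^ (m - J) + Q m).toNat = 2 ^ (m ^ K + Q m).toNat * X ^ c`. -/
def GR2_stmt : Prop :=
  ∀ (J : ℕ) (g : ℕ → ℤ), XP J g → ∃ K0 : ℕ, ∀ K ≥ K0, ∃ (n : ℕ) (B : ℕ → ℕ → ℤ),
    (∀ c, SingleExp (B c)) ∧ ∀ᶠ m : ℕ in atTop, 2 ^ (m ^ K) * g m =
      ∑ c ∈ Finset.range (n + 1), B c m * (2 ^ (2 ^ (m - J))) ^ c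

/-- **PDQ** (20) pseudo division over a commutative ring.
Proof. Induction on `n`. `n < d`: `q = 0, r = A`. `n ≥ d`: `A1 = C b * A - C (A.coeff n) * X ^ (n - d) * H` has `natDegree ≤ n - 1` if `n ≥ 1` (its coefficient at `n` vanishes);
for `n = d = 0`: `A = C a`, `H = C b`, `C b * A = C a * H + 0`. (The remainder condition is `∀ i ≥ d, r.coeff i = 0`, so `r = 0` for `d = 0`.) -/
def PDQ_stmt : Prop :=
  ∀ (R : Type) [CommRing R] (d : ℕ) (H : R[X]), H.natDegree ≤ d →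
    ∀ (n : ℕ) (A : R[X]), A.natDegree ≤ n →
      ∃ q r : R[X], C ((H.coeff d) ^ (n + 1 - d)) * A = q * H + r ∧ (∀ i ≥ d, r.coeff i = 0)

/-- **RED** (60) from `h * D = g` to `u * D = q (X)`.
Proof. GR2 for `g` and `h` with one common `K`: `2 ^ (m ^ K) g = ∑ Bg c X ^ c` (`c ≤ ng`), `2 ^ (m ^ K) h = ∑ Bh c X ^ c` (`c ≤ nh`). `h ≠ 0` eventually, so some `Bh c` is not eventually `0` (SEC); `d` = the largest
such `c`; drop the eventually zero ones above. Let `R` be the subring of `ℕ → ℤ` with carrier `SingleExp` (SEC), `G, H : R[X]` the polynomials with these coefficients (`natDegree H ≤ d`, coefficient at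
`d` is `b = Bh d`, eventually nonzero), PDQ: `C (b ^ N) * G = q * H + r`, `N = ng + 1 - d`. Evaluate at an index `m` (ring homomorphism `R → ℤ`, evaluation of sequences at `m`) and at `x = X m`:
`b(m) ^ N * G_m(X) = q_m(X) H_m(X) + r_m(X)`, and `H_m(X) D = G_m(X)` from `h D = g`. So `(b ^ N D - q_m(X)) H_m(X) = r_m(X)`. If `d = 0`: `r = 0`. If `d ≥ 1`: `|r_m(X)| ≤ d * 2 ^ (m ^ K') * X ^ (d - 1)` and
`|H_m(X)| ≥ X ^ d - d * 2 ^ (m ^ K') X ^ (d - 1) > |r_m(X)|` eventually (`2 ^ (m ^ K')` is much smaller than `X = 2 ^ (2 ^ (m - J))`). In both cases `b ^ N D = q_m(X)`: `u = b ^ N`, `B c` = coefficients of `q`. -/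
def RED_stmt : Prop :=
  ∀ (J : ℕ) (g h : ℕ → ℤ), XP J g → XP J h → (∀ᶠ m : ℕ in atTop, h m ≠ 0) →
    ∃ (u : ℕ → ℤ) (n : ℕ) (B : ℕ → ℕ → ℤ), SingleExp u ∧ (∀ c, SingleExp (B c)) ∧
      (∀ᶠ m : ℕ in atTop, u m ≠ 0) ∧ ∀ᶠ m : ℕ in atTop, ∀ D : ℤ, h m * D = g m →
        u m * D = ∑ c ∈ Finset.range (n + 1), B c m * (2 ^ (2 ^ (m - J))) ^ c

/-- **PO2** (45) a quotient `G (X) / u` dividing `X ^ (2 ^ J) + 1` (as POL, with a general small `u`).
Proof. `E = 2 ^ J`, `Φ = x ^ E + 1`. `|u D| = |G (X)| ≥ X ^ d - d H X ^ (d - 1) ≥ X ^ d / 2`, so `|D| ≥ X ^ d / (2 H)`; in particular `D ≠ 0`.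
(a) `d > E`: `|D| > X ^ E + 1`, so `D` does not divide. (b) `1 ≤ d ≤ E`: PDV with `n = E, M = 1`: `g ^ (E + 1 - d) Φ = q G + r`, `g = B d`. `u * D = G (X)` and `D ∣ Φ (X)`, so `D ∣ r (X)`;
`|r (X)| ≤ d (2 H) ^ (E + 1) X ^ (d - 1) < X ^ d / (2 H) ≤ |D|`, so `r (X) = 0`, so `r = 0` (its leading term would dominate). So `G ∣ C (g ^ _) * Φ`, over the rationals `G ∣ Φ`,
`Φ = cyclotomic (2 ^ (J + 1))` irreducible over the rationals, `natDegree G ≥ 1`: `d = E` and `G = C g * Φ`. -/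
def PO2_stmt : Prop :=
  ∀ (J d : ℕ), 1 ≤ d → ∃ Cst : ℕ, ∀ (H X : ℤ), 2 ≤ H → H ^ Cst ≤ X →
    ∀ B : ℕ → ℤ, B d ≠ 0 → (∀ c ≤ d, |B c| ≤ H) → ∀ (u D : ℤ), u ≠ 0 → |u| ≤ H →
      u * D = ∑ c ∈ Finset.range (d + 1), B c * X ^ c →
      D ∣ X ^ (2 ^ J) + 1 → d = 2 ^ J ∧ u * D = B d * (X ^ (2 ^ J) + 1)

/-- **NQV** (30) a quotient of two functions of a level which divides `F m`, or its cofactor, is a quotient of two single exponential sequences.
Proof. QEX, RED. Let `d` be the largest `c ≤ n` with `B c` not eventually zero (SEC); if there is none, `u D = 0`, so `D = 0`: second alternative. `d = 0`: eventually `u D = B 0`: third alternative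
with `v = B 0`. `d ≥ 1`: PO2 with `H = 2 ^ (m ^ K)` (bounds for `u` and the `B c`, SEC), `X = 2 ^ (2 ^ (m - J))`, `X ^ (2 ^ J) = 2 ^ (2 ^ m)` for `m ≥ J`, `Cst * m ^ K ≤ 2 ^ (m - J)` eventually: if `D E = F m` then
`u D = B d * F m = B d * D * E`, so `u = B d * E` : third alternative for the cofactor: `B d * E = u`, with `u' = B d`, `v' = u`. -/
def NQV_stmt : Prop :=
  ∀ (k : ℕ) (t s : ℕ → ℤ), Lev k t → Lev k s →
    (∀ᶠ m : ℕ in atTop, s m = 0) ∨
    (∀ᶠ m : ℕ in atTop, ∀ D : ℤ, s m * D = t m → ¬ (D ∣ 2 ^ (2 ^ m) + 1)) ∨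
    (∃ u v : ℕ → ℤ, SingleExp u ∧ SingleExp v ∧ (∀ᶠ m : ℕ in atTop, u m ≠ 0) ∧
      ∀ᶠ m : ℕ in atTop, ∀ D E : ℤ, s m * D = t m → D * E = 2 ^ (2 ^ m) + 1 → u m * D = v m) ∨
    ∃ u v : ℕ → ℤ, SingleExp u ∧ SingleExp v ∧ (∀ᶠ m : ℕ in atTop, u m ≠ 0) ∧
      ∀ᶠ m : ℕ in atTop, ∀ D E : ℤ, s m * D = t m → D * E = 2 ^ (2 ^ m) + 1 → u m * E = v m

/-- **TA2** (35) single exponential sequences are periodic modulo prime powers.
Proof. Let `M ≥ 2` be such that for `m ≥ M` the formula for `f m` and all the inequalities `0 ≤ Q (m)` hold. `q > M` prime, so odd; `T = q ^ j * (q - 1)` (for `j = 0` anything).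
`p (m + T) = p (m)` modulo `q ^ j`; `Q (m + T) = Q (m)` modulo `φ (q ^ j) = q ^ (j - 1) (q - 1)`, both are `≥ 0`,
so `2 ^ Q (m + T) = 2 ^ Q (m)` modulo `q ^ j` by Euler (`Nat.ModEq.pow_totient`). -/
def TA2_stmt : Prop := ∀ f : ℕ → ℤ, SingleExp f → PeriodicModPowers f

/-- the property of the final theorem for one pair -/
def KillQ (u v : ℕ → ℤ) : Prop :=
  ∀ a d : ℕ, 0 < d → ∃ b e : ℕ, 0 < e ∧ (∀ j : ℕ, ∃ i : ℕ, b + e * j = a + d * i) ∧
    ∀ (j : ℕ) (D : ℤ), u (b + e * j) ≠ 0 → u (b + e * j) * D = v (b + e * j) →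
      D ∣ 2 ^ (2 ^ (b + e * j)) + 1 → |D| = 1 ∨ |D| = 2 ^ (2 ^ (b + e * j)) + 1

/-- **KI2** (45) pairs periodic modulo prime powers.
Proof. Let `M ≥ 1` be larger than both constants. If for no `m = a + d i ≥ M` there is `D` with `u m ≠ 0`, `u m * D = v m`, `D ∣ F m`, `|D| ≠ 1`: take `b = a + d * M`, `e = d`. Otherwise let
`m1, D1` be such; a prime `q ∣ D1`, so `q ∣ F m1`, `q > m1 ≥ M` (`q - 1` is divisible by the order `2 ^ (m1 + 1)` of `2`). Let `j` be with `q ^ (j - 1) ∣ u m1`, not `q ^ j ∣ u m1`, `j ≥ 1`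
(`u m1 ≠ 0`); then `q ^ j ∣ u m1 * D1 = v m1`. Let `T` be a common period of `u` and `v` modulo `q ^ j` for the indices `≥ M` (product of the two periods). `b = m1 + d * T`, `e = d * T`. For `m = b + e i`: `u m = u m1`,
`v m = v m1 = 0` modulo `q ^ j`, so `q ^ (j - 1) ∣ u m`, not `q ^ j ∣ u m`, and if `u m * D = v m` then `q ∣ D`. If `D ∣ F m` then `q ∣ F m`, `m > m1`: contradiction to
the coprimality of Fermat numbers. -/
def KI2_stmt : Prop := ∀ u v : ℕ → ℤ, PeriodicModPowers u → PeriodicModPowers v → KillQ u v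

/-- **FN3** (40) the final theorem for quotients.
Proof. Every pair of the list has `KillQ` : periodic: KI2. Formulas: FR2, a common level (LVA: monotone, congruence), NQV: (1) `u` eventually `0`: start late. (2) no such `D` divides `F m` eventually: start late.
(3) `u' D = v'` with `u', v'` single exponential: TA2, KI2 for `(u', v')` inside the given progression, started late (so that the eventual statements hold; `u' m ≠ 0`). (4) the cofactor `E`:
the same for `E`, `|E| = 1` or `|E| = F m` gives `|D| = F m` or `|D| = 1`. Then induction on the list as in FIN. -/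
def FN3_stmt : Prop :=
  ∀ A : List ((ℕ → ℤ) × (ℕ → ℤ)),
    (∀ x ∈ A, (PeriodicModPowers x.1 ∧ PeriodicModPowers x.2) ∨ (EvFml x.1 ∧ EvFml x.2)) →
    ∀ a d : ℕ, 0 < d → ∃ b e : ℕ, 0 < e ∧ (∀ j : ℕ, ∃ i : ℕ, b + e * j = a + d * i) ∧
      ∀ x ∈ A, ∀ (j : ℕ) (D : ℤ), x.1 (b + e * j) ≠ 0 → x.1 (b + e * j) * D = x.2 (b + e * j) →
        D ∣ 2 ^ (2 ^ (b + e * j)) + 1 → |D| = 1 ∨ |D| = 2 ^ (2 ^ (b + e * j)) + 1

end Pool.Agent.NoFormula
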