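import Pool.Agent.helper36.NF.SpecC
import Pool.Agent.helper36.NF.SpecD

/-!
# No formula for a divisor of `n ^ n + 1` (MP_a70bdc_nt): quotients
-/

set_option autoImplicit false

open Polynomial Filter

namespace Pool.Agent.NoFormula

/-- **SI2** (20) the theorem on quotients for `n ^ n + 1`, `n = 2 ^ (2 ^ s)`, `m = s + 2 ^ s`.
Proof. FN3 with `a = 0, d = 1` gives a progression `b0 + e0 j` of indices `m`. RES with `e = e0`, `r = b0`: a progression of `s` with `s + 2 ^ s = b0` modulo `e0`;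
start it later, so that `s + 2 ^ s ≥ b0`; then `s + 2 ^ s = b0 + e0 j` for some `j`. `n ^ n = 2 ^ (2 ^ s * 2 ^ (2 ^ s)) = 2 ^ (2 ^ (s + 2 ^ s))`. -/
def SI2_stmt : Prop :=
  ∀ A : List ((ℕ → ℤ) × (ℕ → ℤ)),
    (∀ x ∈ A, (PeriodicModPowers x.1 ∧ PeriodicModPowers x.2) ∨ (EvFml x.1 ∧ EvFml x.2)) →
    ∃ b e : ℕ, 0 < e ∧ ∀ x ∈ A, ∀ j s n m : ℕ, s = b + e * j → n = 2 ^ (2 ^ s) → m = s + 2 ^ s →
      ∀ D : ℤ, x.1 m ≠ 0 → x.1 m * D = x.2 m → D ∣ (n : ℤ) ^ n + 1 →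
        |D| = 1 ∨ |D| = (n : ℤ) ^ n + 1

end Pool.Agent.NoFormula
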