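import Pool.Agent.helper36.NF.POLb
import Pool.Agent.helper36.NF.FOQb
import Pool.Agent.helper36.NF.SpecE
import Pool.Agent.helper71.NF.DCH
import Pool.Agent.helper3.NF.DOM
import Pool.Agent.helper45.NF.EXP
import Pool.Agent.helper42.NF.FN2
import Pool.Agent.helper89.NF.FN3
import Pool.Agent.helper29.NF.FOM
import Pool.Agent.helper18.NF.FOT
import Pool.Agent.helper43.NF.FOU
import Pool.Agent.helper55.NF.FR2
import Pool.Agent.helper72.NF.GR2
import Pool.Agent.helper22.NF.GRP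
import Pool.Agent.helper78.NF.KI2
import Pool.Agent.helper48.NF.KIL
import Pool.Agent.helper41.NF.LVA
import Pool.Agent.helper32.NF.NDV
import Pool.Agent.helper72.NF.NRM
import Pool.Agent.helper87.NF.PDQ
import Pool.Agent.helper1.NF.PDV
import Pool.Agent.helper14.NF.PO2
import Pool.Agent.helper74.NF.RED
import Pool.Agent.helper20.NF.RES
import Pool.Agent.helper30.NF.SEC
import Pool.Agent.helper30.NF.SML
import Pool.Agent.helper79.NF.TA2
import Pool.Agent.helper40.NF.TAM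
import Pool.Agent.helper40.NF.NQV
import Pool.Agent.helper30.NF.SI2

set_option autoImplicit false

namespace Pool.Agent.NoFormula

theorem pf_LVA : LVA_stmt := LVA
theorem pf_NRM : NRM_stmt := NRM pf_LVA
theorem pf_DOM : DOM_stmt := DOM
theorem pf_DCH : DCH_stmt := DCH pf_LVA pf_NRM pf_DOM
theorem pf_SML : SML_stmt := SML pf_LVA pf_NRM pf_DOM pf_DCH
theorem pf_EXP : EXP_stmt := EXP pf_LVA pf_NRM pf_DOM pf_DCH pf_SML
theorem pf_GRP : GRP_stmt := GRP pf_LVA pf_DCH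
theorem pf_PO2 : PO2_stmt := PO2 PDV
theorem pf_POL : POL_stmt := POL_of_PO2 pf_PO2
theorem pf_NDV : NDV_stmt := NDV pf_EXP pf_GRP pf_POL
theorem pf_FR2 : FR2_stmt := FR2 pf_LVA pf_DCH
theorem pf_FN2 : FN2_stmt := FN2 pf_LVA pf_FR2 pf_NDV TAM KIL
theorem pf_FOU : FOU_stmt := FOU pf_FN2
theorem pf_FOM : FOM_stmt := FOM pf_FOU FOT
theorem pf_SEC : SEC_stmt := SEC pf_LVA pf_DCH
theorem pf_RED : RED_stmt := RED pf_SEC GR2 PDQ

theorem pf_FN3 (hQEX : QEX_stmt) : FN3_stmt :=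
  FN3 pf_LVA pf_FR2 (NQV pf_SEC hQEX pf_RED pf_PO2) TA2 KI2

theorem pf_SI2 (hQEX : QEX_stmt) : SI2_stmt := SI2 (pf_FN3 hQEX) RES

end Pool.Agent.NoFormula
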