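import Mathlib

/-!
# Definitions for the hand-ins NoFormula

Formulas in one variable, sequences periodic modulo prime powers, the first order language
`0, 1, -, 2 ^ ( ), +, *, ite, <` with its structure on the integers, its universal sentences true in the integers, and
the sentence that `2 ^ (2 ^ m) + 1` is composite for all `m ≥ N`.
-/

set_option autoImplicit false

open Filter FirstOrder FirstOrder.Language

namespace Pool.Agent.NoFormula

/-- formulas in one variable: the variable, integer constants, `+, -, *`, `2 ^ ( )` and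
case distinction -/
inductive Fml : Type
  | var : Fml
  | const : ℤ → Fml
  | add : Fml → Fml → Fml
  | sub : Fml → Fml → Fml
  | mul : Fml → Fml → Fml
  | pow2 : Fml → Fml
  | ite : Fml → Fml → Fml → Fml

/-- value of a formula at `m`; `2 ^ t` is read as `1` if `t` is negative; `ite s t u` is `t` if `0 ≤ s`
and `u` otherwise -/
def Fml.eval : Fml → ℕ → ℤ
  | .var, m => m
  | .const c, _ => c
  | .add s t, m => s.eval m + t.eval m
  | .sub s t, m => s.eval m - t.eval m
  | .mul s t, m => s.eval m * t.eval m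
  | .pow2 s, m => 2 ^ (s.eval m).toNat
  | .ite s t u, m => if 0 ≤ s.eval m then t.eval m else u.eval m

/-- `a` is periodic modulo every power of every prime `q > M`, for the indices `m ≥ M`, with one `M` for all `q` -/
def PeriodicModPowers (a : ℕ → ℤ) : Prop :=
  ∃ M : ℕ, ∀ q : ℕ, q.Prime → M < q → ∀ j : ℕ, ∃ T : ℕ, 0 < T ∧ ∀ m : ℕ, M ≤ m →
    (q : ℤ) ^ j ∣ a (m + T) - a m

/-- from some index on given by a formula -/
def EvFml (a : ℕ → ℤ) : Prop := ∃ t : Fml, ∀ᶠ m : ℕ in atTop, a m = t.eval m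

/-- function symbols -/
inductive Fn : ℕ → Type
  | zero : Fn 0
  | one : Fn 0
  | neg : Fn 1
  | pow2 : Fn 1
  | add : Fn 2
  | mul : Fn 2
  | ite : Fn 3

/-- relation symbols -/
inductive Rl : ℕ → Type
  | lt : Rl 2

/-- the language `0, 1, -, 2 ^ ( ), +, *, ite, <` -/
def Lx : Language := ⟨Fn, Rl⟩

/-- interpretation of the function symbols in the integers -/
def fnInt : ∀ {n : ℕ}, Fn n → (Fin n → ℤ) → ℤ
  | _, .zero, _ => 0
  | _, .one, _ => 1
  | _, .neg, x => - x 0
  | _, .pow2, x => 2 ^ (x 0).toNat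
  | _, .add, x => x 0 + x 1
  | _, .mul, x => x 0 * x 1
  | _, .ite, x => if 0 ≤ x 0 then x 1 else x 2

/-- interpretation of the relation symbols in the integers -/
def rlInt : ∀ {n : ℕ}, Rl n → (Fin n → ℤ) → Prop
  | _, .lt, x => x 0 < x 1

instance instLxInt : Lx.Structure ℤ where
  funMap := fnInt
  RelMap := rlInt

/-- the term `x + y` -/
def tAdd {α : Type} (x y : Lx.Term α) : Lx.Term α := Term.func (L := Lx) Fn.add ![x, y]
/-- the term `x * y` -/
def tMul {α : Type} (x y : Lx.Term α) : Lx.Term α := Term.func (L := Lx) Fn.mul ![x, y]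
/-- the term `2 ^ x` -/
def tPow {α : Type} (x : Lx.Term α) : Lx.Term α := Term.func (L := Lx) Fn.pow2 ![x]
/-- the term `1` -/
def tOne {α : Type} : Lx.Term α := Term.func (L := Lx) Fn.one ![]
/-- the term `0 + 1 + ... + 1` -/
def tNum {α : Type} : ℕ → Lx.Term α
  | 0 => Term.func (L := Lx) Fn.zero ![]
  | n + 1 => tAdd (tNum n) tOne
/-- the formula `x < y` -/
def fLt {α : Type} {n : ℕ} (x y : Lx.Term (α ⊕ Fin n)) : Lx.BoundedFormula α n :=
  BoundedFormula.rel (L := Lx) Rl.lt ![x, y]

/-- the sentence: for all `m`, if not `m < N`, there are `x > 1` and `y > 1` with `x * y = 2 ^ (2 ^ m) + 1` -/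
def compositeFrom (N : ℕ) : Lx.Sentence :=
  (((fLt (Term.var (Sum.inr 0)) (tNum N)).not).imp
    ((((fLt tOne (Term.var (Sum.inr 1))) ⊓ (fLt tOne (Term.var (Sum.inr 2)))) ⊓
      (Term.bdEqual (tMul (Term.var (Sum.inr 1)) (Term.var (Sum.inr 2)))
        (tAdd (tPow (tPow (Term.var (Sum.inr 0)))) tOne))).ex.ex)).all

/-- the universal sentences true in the integers -/
def UnivTh : Lx.Theory := {φ | BoundedFormula.IsUniversal φ ∧ ℤ ⊨ φ}

end Pool.Agent.NoFormula
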