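import Pool.Agent.helper36.NF.Asm
import Pool.Agent.helper76.NF.QEX

set_option autoImplicit false

namespace Pool.Agent.NoFormula

theorem pf_QEX : QEX_stmt := QEX pf_LVA pf_NRM pf_DOM pf_DCH pf_SML

theorem final_FN3 : FN3_stmt := pf_FN3 pf_QEX

theorem final_SI2 : SI2_stmt := pf_SI2 pf_QEX

end Pool.Agent.NoFormula
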