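import Pool.Agent.helper36.NF.SpecD

set_option autoImplicit false

open Polynomial Filter

namespace Pool.Agent.NoFormula

/-- POL from PO2 -/
theorem POL_of_PO2 (hPO2 : PO2_stmt) : POL_stmt := by
  intro J d hd
  obtain ⟨Cst, hC⟩ := hPO2 J d hd
  refine ⟨Cst, fun H X hH hX hev B hBd hB s f hs heq hdvd => ?_⟩
  have h2s : (0 : ℤ) < 2 ^ s := by positivity
  obtain ⟨-, h1⟩ := hC H X hH hX B hBd hB (2 ^ s) f h2s.ne' (by rwa [abs_of_pos h2s]) heq hdvd
  obtain ⟨h, hh⟩ := hdvd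
  have hX0 : 0 < X := lt_of_lt_of_le (by positivity) hX
  have hF : 0 < X ^ (2 ^ J) + 1 := by positivity
  have hf0 : f ≠ 0 := by
    rintro rfl
    rw [zero_mul] at hh
    omega
  have h3 : (2 : ℤ) ^ s = B d * h := by
    rw [hh] at h1
    have : f * 2 ^ s = f * (B d * h) := by rw [mul_comm, h1]; ring
    exact mul_left_cancel₀ hf0 this
  have h4 : h.natAbs ∣ 2 ^ s := by
    have : h ∣ (2 : ℤ) ^ s := ⟨B d, by rw [h3]; ring⟩
    have h5 := Int.natAbs_dvd_natAbs.2 this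
    rwa [Int.natAbs_pow] at h5
  obtain ⟨i, -, hi⟩ := (Nat.dvd_prime_pow Nat.prime_two).1 h4
  have hodd : Odd (X ^ (2 ^ J) + 1) := by
    apply Even.add_one
    exact (Int.even_pow.2 ⟨hev, by positivity⟩)
  have hhodd : Odd h := by
    rw [hh] at hodd
    exact (Int.odd_mul.1 hodd).2
  have hi0 : i = 0 := by
    rcases Nat.eq_zero_or_pos i with h0 | h0
    · exact h0
    · exfalso
      have h6 : Odd h.natAbs := Int.natAbs_odd.2 hhodd
      rw [hi] at h6
      have h7 : Even (2 ^ i) := (Nat.even_pow.2 ⟨even_two, h0.ne'⟩)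
      exact (Nat.not_even_iff_odd.2 h6) h7
  have h8 : |h| = 1 := by
    rw [Int.abs_eq_natAbs, hi, hi0]
    norm_num
  have h9 : |f| * |h| = X ^ (2 ^ J) + 1 := by
    rw [← abs_mul, ← hh, abs_of_pos hF]
  rw [h8, mul_one] at h9
  exact h9

end Pool.Agent.NoFormula
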