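import Mathlib

/-!
# No formula for a divisor of a Fermat number (MP_37e5fa_nt): specification

`F m = 2 ^ (2 ^ m) + 1`.

FINAL THEOREM (row FIN). Let `A` be a finite list of integer sequences, each of which is, from some
index on, given by a formula built from the index `m` and integer constants by `+, -, *, 2 ^ ( )`
(arbitrary nesting), or is periodic modulo every large prime, from an index on which does not depend
on the prime. Then every arithmetic progression contains an arithmetic progression of indices `m` at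
which no member of the list takes a value dividing `F m`, except values `1, -1, F m, - F m`.

PLAN. Levels: `Lev 0` = (eventually) polynomials, `Lev (k+1)` = (eventually) finite sums of
`p (m) * 2 ^ (g m)`, `g` in `Lev k`, `g` eventually `>= 0`. Every function of a level is eventually
constant, or eventually `>= m - C`, or eventually `<= C - m` (DCH), by a normal form in which the
leading term dominates (NRM, DOM). So all formulas are in a level (FRM). If `f` is in a level and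
`|f m| <= F m` for infinitely many `m`, then the exponents in its normal form are
`c * 2 ^ (m - J) + Q m` with a constant `c` and a polynomial `Q` (SML, EXP); so with
`X = 2 ^ (2 ^ (m - J))` we have `2 ^ (m ^ K) * f m = G (X)`, `G` a polynomial of bounded degree with
coefficients at most `2 ^ (m ^ K)` (GRP). If its degree is positive, pseudo division of `x ^ (2 ^ J) + 1` by `G` and the
irreducibility of `x ^ (2 ^ J) + 1` show that `f m` divides `F m` only if `|f m| = F m` (POL). If its degree is zero,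
`f` is a sum of `p m * 2 ^ (Q m)`, which is periodic modulo all odd primes (TAM). If `f` is periodic modulo the
large primes and `f m1` divides `F m1`, a prime factor `q` of `f m1` divides `f m` for all `m = m1` modulo the
period, but no `F m` with `m` not `m1` (KIL).
-/

set_option autoImplicit false

open Polynomial Filter

namespace Pool.Agent.NoFormula

/-- formulas in one variable: the variable, integer constants, `+, -, *` and `2 ^ ( )` -/
inductive Formula : Type
  | var : Formula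
  | const : ℤ → Formula
  | add : Formula → Formula → Formula
  | sub : Formula → Formula → Formula
  | mul : Formula → Formula → Formula
  | pow2 : Formula → Formula

/-- value of a formula at `m`; `2 ^ t` is read as `1` if `t` is negative -/
def Formula.eval : Formula → ℕ → ℤ
  | .var, m => m
  | .const c, _ => c
  | .add s t, m => s.eval m + t.eval m
  | .sub s t, m => s.eval m - t.eval m
  | .mul s t, m => s.eval m * t.eval m
  | .pow2 s, m => 2 ^ (s.eval m).toNat

/-- `a` is periodic modulo every prime `q > M`, for the indices `m ≥ M`, with one `M` for all `q` -/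
def PeriodicModPrimes (a : ℕ → ℤ) : Prop :=
  ∃ M : ℕ, ∀ q : ℕ, q.Prime → M < q → ∃ T : ℕ, 0 < T ∧ ∀ m : ℕ, M ≤ m → (q : ℤ) ∣ a (m + T) - a m

/-- the term `p (m) * 2 ^ (g m)` -/
def tm (x : ℤ[X] × (ℕ → ℤ)) (m : ℕ) : ℤ := x.1.eval (m : ℤ) * 2 ^ (x.2 m).toNat

/-- the sum of the terms of a list -/
def sm (L : List (ℤ[X] × (ℕ → ℤ))) (m : ℕ) : ℤ := (L.map (fun x => tm x m)).sum

/-- levels -/
def Lev : ℕ → (ℕ → ℤ) → Prop
  | 0, f => ∃ p : ℤ[X], ∀ᶠ m : ℕ in atTop, f m = p.eval (m : ℤ)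
  | k + 1, f => ∃ L : List (ℤ[X] × (ℕ → ℤ)),
      (∀ x ∈ L, Lev k x.2 ∧ ∀ᶠ m : ℕ in atTop, 0 ≤ x.2 m) ∧ ∀ᶠ m : ℕ in atTop, f m = sm L m

/-- eventually constant, or at least `m - C`, or at most `C - m` -/
def Dich (f : ℕ → ℤ) : Prop :=
  (∃ c : ℤ, ∀ᶠ m : ℕ in atTop, f m = c) ∨ (∃ C : ℤ, ∀ᶠ m : ℕ in atTop, (m : ℤ) - C ≤ f m) ∨
    ∃ C : ℤ, ∀ᶠ m : ℕ in atTop, f m ≤ C - m

/-- normal form: polynomials nonzero, exponents decreasing by at least `m - C` -/
def NF (k : ℕ) (L : List (ℤ[X] × (ℕ → ℤ))) : Prop :=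
  (∀ x ∈ L, x.1 ≠ 0 ∧ Lev k x.2 ∧ ∀ᶠ m : ℕ in atTop, 0 ≤ x.2 m) ∧
    L.Pairwise (fun x y => ∃ C : ℤ, ∀ᶠ m : ℕ in atTop, (m : ℤ) - C ≤ x.2 m - y.2 m)

/-- **LVA** (40) closure properties of the levels.
Proof. Congruence and polynomials: `Lev 0` by definition; `Lev (k+1)`: for a polynomial `p` take
`L = [(p, 0)]` (`2 ^ 0 = 1`), `0` being in `Lev k` by induction. Sum in `Lev (k+1)`: append the lists
(`List.map_append, List.sum_append`). Negation: replace every `p` by `-p`. Product: list of all pairs,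
`((p, g), (q, h)) ↦ (p * q, g + h)`; `g + h` is in `Lev k` by the sum property of level `k` (prove the sum
property first, for all `k`), and `2 ^ (g).toNat * 2 ^ (h).toNat = 2 ^ (g + h).toNat` for all `m` where
`g m, h m ≥ 0` (finitely many `∀ᶠ` conditions: induction on the lists, or `List.product`). Monotone: induction on
`k`; for `k = 0` it is the polynomial case (with congruence); for `k + 1` the same list works, its
exponents being in `Lev (k+1)` by the induction hypothesis. -/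
def LVA_stmt : Prop :=
  (∀ k f g, Lev k f → Lev k g → Lev k (fun m => f m + g m)) ∧
  (∀ k f, Lev k f → Lev k (fun m => - f m)) ∧
  (∀ k f g, Lev k f → Lev k g → Lev k (fun m => f m * g m)) ∧
  (∀ k f, Lev k f → Lev (k + 1) f) ∧
  (∀ k (p : ℤ[X]), Lev k (fun m => p.eval (m : ℤ))) ∧
  (∀ k f g, Lev k f → (∀ᶠ m : ℕ in atTop, f m = g m) → Lev k g)

/-- **NRM** (50) normal form.
Proof. Let `L` be the list of `f`. Induction on the length of `L` (strong, over all `f`): insertion. Suppose `L = x :: L'`,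
and `L'` has a normal form `N` (a list with `NF k N`, `sm L' =ᶠ sm N`). If `x.1 = 0` then drop `x`. We insert
`x` into `N` (lemma INS, by induction on `N`: for every `x` with `x.1 ≠ 0`, `Lev k x.2`, `x.2` eventually `≥ 0`, and every
`N` with `NF k N` there is `N'` with `NF k N'`, `sm N' =ᶠ tm x + sm N`, and moreover every `z ∈ N'` has `z.2` equal up to an
eventually constant difference to `x.2` or to the exponent of a member of `N`; the last clause is what keeps `Pairwise`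
for the head). `N = []`: `[x]`. `N = y :: N1`: the difference
`x.2 - y.2` is in `Lev k` (LVA) and so in `Dich`: (1) `≥ m - C`: put `x` in front (for `z ∈ N1`:
`x.2 - z.2 ≥ (m - C) + (m - C') ≥ m - (C + C')`). (2) `≤ C - m`: put `y` in front of the result for `x, N1`. (3) eventually constant
`c`: if `c ≥ 0` then `x.2 = y.2 + c` and `tm x + tm y =ᶠ tm (2 ^ c * x.1 + y.1, y.2)`; if `c < 0` then
`tm x + tm y =ᶠ tm (x.1 + 2 ^ (-c) * y.1, x.2)`; if the new polynomial is `0` take `N1`, otherwise the new pair in front of `N1`. -/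
def NRM_stmt : Prop :=
  ∀ k : ℕ, (∀ g, Lev k g → Dich g) → ∀ f, Lev (k + 1) f →
    ∃ L : List (ℤ[X] × (ℕ → ℤ)), NF k L ∧ ∀ᶠ m : ℕ in atTop, f m = sm L m

/-- **DOM** (30) the leading term dominates.
Proof. For `y ∈ L`: `x.2 m - y.2 m ≥ m - C`, so `|tm y m| ≤ |y.1 (m)| * 2 ^ (x.2 m).toNat * 2 ^ (C.toNat) / 2 ^ m`, i.e.
`2 ^ m * |tm y m| ≤ |y.1 (m)| * 2 ^ C.toNat * 2 ^ (x.2 m).toNat`; and a fixed polynomial times a constant is at most
`2 ^ m / (2 * (length + 1))` for large `m` (`|p (m)| ≤ C' * m ^ deg`; exponential beats polynomial, e.g.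
`tendsto_pow_const_div_const_pow_of_one_lt`). Sum over the list (induction on `L`, with a parameter `ε = 1 / n` or
first prove `∀ n, ∀ᶠ m, n * |tm y m| ≤ 2 ^ (x.2 m).toNat`). -/
def DOM_stmt : Prop :=
  ∀ (k : ℕ) (x : ℤ[X] × (ℕ → ℤ)) (L : List (ℤ[X] × (ℕ → ℤ))), NF k (x :: L) →
    ∀ᶠ m : ℕ in atTop, 2 * |sm (x :: L) m - tm x m| ≤ 2 ^ (x.2 m).toNat

/-- **DCH** (35) every function of a level is in `Dich`.
Proof. Induction on `k`. `k = 0`: a polynomial `p` over the integers is constant, or tends to `+∞` or `-∞`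
at least linearly (degree `≥ 1`: for positive leading coefficient `p (m) ≥ m - C` for large `m`; e.g. `p - X` tends to
`+∞` or is eventually constant or .. simplest: `p (m + 1) - p (m)` has smaller degree, or
`Polynomial.tendsto_atTop_of_leadingCoeff_nonneg` for the real polynomial: degree `≥ 2`: `p - X` still has positive leading
coefficient; degree `1`: `p = a X + b`, `a ≥ 1`). `k + 1`: NRM (its hypothesis is the induction hypothesis): `f =ᶠ sm L`, `NF k L`.
`L = []`: `f = 0`. `L = x :: L'`: DOM. `Dich x.2`: `x.2` is eventually constant `c ≥ 0`: then `L' = []` (a member `y` would have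
`y.2 ≤ c - m + C < 0`), so `f` is eventually the polynomial `2 ^ c * x.1` : case `k = 0`. `x.2 ≤ C - m` is
impossible (`x.2 ≥ 0` eventually). `x.2 ≥ m - C`: the polynomial `x.1 ≠ 0` has eventually constant sign and `|x.1 (m)| ≥ 1`; so
`|f m| ≥ 2 ^ (x.2 m).toNat / 2 ≥ 2 ^ (m - C - 1) ≥ m` with that sign. -/
def DCH_stmt : Prop := ∀ k f, Lev k f → Dich f

/-- **FRM** (15) every formula is in a level.
Proof. Induction on the formula; `var`: the polynomial `X`; `const`: `C c`; `add, sub, mul`: go up to the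
larger level by monotonicity (LVA, iterated) and use closure. `pow2 s`: `s` in `Lev k`, DCH: if `s` is
eventually `c`: the constant polynomial `2 ^ c.toNat`; if `s ≥ m - C`: eventually `s ≥ 0`, so `Lev (k + 1)` with the list
`[(1, s)]`; if `s ≤ C - m`: eventually `toNat = 0` and the value is `1`. -/
def FRM_stmt : Prop := ∀ t : Formula, ∃ k, Lev k t.eval

/-- **SML** (45) functions of size `O (2 ^ m)` for infinitely many `m`.
Proof. `k = 0`: `c = 0, J = 0`. `k + 1`: normal form (NRM, DCH) `g =ᶠ sm L`. `L = []`: zero. `L = x :: L'`: by DOM and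
`|x.1 (m)| ≥ 1` eventually, `2 ^ (x.2 m).toNat ≤ 2 |g m| ≤ 2 A 2 ^ m` for infinitely many `m`, so `x.2 m ≤ m + C1` for
infinitely many `m`. For EVERY `y ∈ x :: L'`: eventually `y.2 ≤ x.2`, so `0 ≤ y.2 m ≤ m + C1` for infinitely many `m`.
`Dich (y.2 - m)` (`y.2 - m` is in `Lev k` by LVA): `≥ m - C` contradicts the last line; constant: `y.2 = m + c` eventually;
`≤ C - m`: `y.2 ≤ C` eventually, then `Dich y.2` leaves only: `y.2` eventually constant `≥ 0`. So every term is, eventually,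
`y.1 (m) * 2 ^ (m + c)` (`c` an integer) or `y.1 (m) * 2 ^ c`. Choose `J ≥ - c` for all the `c` of the first kind: the sum is `P (m) * 2 ^ (m - J) + Q (m)`
with `P, Q` polynomials. For infinitely many `m`: `|P (m)| * 2 ^ (m - J) ≤ A 2 ^ m + |Q (m)|`, so `|P (m)| ≤ (A + 1) * 2 ^ J`
infinitely often, so `P` is a constant polynomial (a nonconstant one tends to infinity in absolute value: `Dich` of `P`). -/
def SML_stmt : Prop :=
  ∀ (k : ℕ) (g : ℕ → ℤ) (A : ℕ), Lev k g → (∃ᶠ m : ℕ in atTop, |g m| ≤ A * 2 ^ m) →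
    ∃ (J : ℕ) (c : ℤ) (Q : ℤ[X]), ∀ᶠ m : ℕ in atTop, g m = c * 2 ^ (m - J) + Q.eval (m : ℤ)

/-- **EXP** (30) functions of size at most `F m` for infinitely many `m`.
Proof. `k = 0`: one term, `c = 0, Q = 0`. `k + 1`: normal form (NRM, DCH). `L = []`: empty list. `L = x :: L'`: by DOM
`2 ^ (x.2 m).toNat ≤ 2 |f m| ≤ 2 ^ (2 ^ m + 2)` infinitely often, so `x.2 m ≤ 2 ^ m + 2 ≤ 3 * 2 ^ m`; for every `y ∈ x :: L'` eventually
`0 ≤ y.2 ≤ x.2`, so `|y.2 m| ≤ 3 * 2 ^ m` infinitely often and SML gives `y.2 = c * 2 ^ (m - J_y) + Q`. Take `J = ` the maximum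
(`2 ^ (m - J_y) = 2 ^ (J - J_y) * 2 ^ (m - J)` for `m ≥ J`). `c ≥ 0` since `y.2 ≥ 0` eventually and `2 ^ (m - J)` beats polynomials. -/
def EXP_stmt : Prop :=
  ∀ (k : ℕ) (f : ℕ → ℤ), Lev k f → (∃ᶠ m : ℕ in atTop, |f m| ≤ 2 ^ (2 ^ m) + 1) →
    ∃ (J : ℕ) (L : List (ℤ[X] × ℕ × ℤ[X])),
      (∀ x ∈ L, ∀ᶠ m : ℕ in atTop, 0 ≤ (x.2.1 : ℤ) * 2 ^ (m - J) + x.2.2.eval (m : ℤ)) ∧
      ∀ᶠ m : ℕ in atTop, f m = (L.map (fun x => x.1.eval (m : ℤ) *
        2 ^ ((x.2.1 : ℤ) * 2 ^ (m - J) + x.2.2.eval (m : ℤ)).toNat)).sum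

/-- single exponential sequences -/
def SingleExp (f : ℕ → ℤ) : Prop :=
  ∃ L : List (ℤ[X] × ℤ[X]), (∀ x ∈ L, ∀ᶠ m : ℕ in atTop, 0 ≤ x.2.eval (m : ℤ)) ∧
    ∀ᶠ m : ℕ in atTop, f m = (L.map (fun x => x.1.eval (m : ℤ) * 2 ^ (x.2.eval (m : ℤ)).toNat)).sum

/-- polynomial in `X = 2 ^ (2 ^ (m - J))` of degree `d ≥ 1` with small coefficients -/
def PolyInX (J : ℕ) (f : ℕ → ℤ) : Prop :=
  ∃ (K d : ℕ) (B : ℕ → ℕ → ℤ) (s : ℕ → ℕ), 1 ≤ d ∧ (∀ᶠ m : ℕ in atTop, B d m ≠ 0) ∧
    (∀ᶠ m : ℕ in atTop, s m ≤ m ^ K) ∧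
    (∀ᶠ m : ℕ in atTop, ∀ c ≤ d, |B c m| ≤ 2 ^ (m ^ K)) ∧
    ∀ᶠ m : ℕ in atTop, 2 ^ (s m) * f m =
      ∑ c ∈ Finset.range (d + 1), B c m * (2 ^ (2 ^ (m - J))) ^ c

/-- **GRP** (50) grouping by powers of `X = 2 ^ (2 ^ (m - J))`.
Proof. Choose `K0` with `|Q (m)| ≤ m ^ K0` eventually for all third entries `Q` of `L` (`|Q (m)| ≤ C m ^ deg ≤ m ^ (deg + 1)`).
For `c : ℕ` put `B c m = ∑_{x ∈ L, x.2.1 = c} x.1 (m) * 2 ^ (m ^ K0 + Q m).toNat`. Since the exponents
`c 2 ^ (m - J) + Q m` are eventually `≥ 0`, `2 ^ (m ^ K0) * 2 ^ (c 2 ^ (m - J) + Q m).toNat = 2 ^ (m ^ K0 + Q m).toNat * X ^ c`, so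
`2 ^ (m ^ K0) * f m = ∑_{c ≤ D} B c m * X ^ c`, `D` the maximum of the `x.2.1`; `s m = m ^ K0`.
`B c` is in `Lev 1` (exponents: the polynomials `X ^ K0 + Q`, eventually `≥ 0`), so by DCH it is eventually `0` or eventually nonzero.
If some `c ≥ 1` has `B c` not eventually zero, let `d` be the largest one; the `B c` with `c > d` are eventually `0`; `PolyInX` with
`K = K0 + 2` (`|x.1 (m)| ≤ 2 ^ m` eventually, so `|B c m| ≤ length * 2 ^ m * 2 ^ (2 m ^ K0) ≤ 2 ^ (m ^ (K0 + 2))`).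
Otherwise all `B c`, `c ≥ 1`, are eventually zero; then `f m` is eventually the sum of
the terms with `x.2.1 = 0`, whose exponents are `Q m` (eventually `≥ 0`): `SingleExp`. -/
def GRP_stmt : Prop :=
  ∀ (f : ℕ → ℤ) (J : ℕ) (L : List (ℤ[X] × ℕ × ℤ[X])),
      (∀ x ∈ L, ∀ᶠ m : ℕ in atTop, 0 ≤ (x.2.1 : ℤ) * 2 ^ (m - J) + x.2.2.eval (m : ℤ)) →
      (∀ᶠ m : ℕ in atTop, f m = (L.map (fun x => x.1.eval (m : ℤ) *
        2 ^ ((x.2.1 : ℤ) * 2 ^ (m - J) + x.2.2.eval (m : ℤ)).toNat)).sum) →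
      SingleExp f ∨ PolyInX J f

/-- **PDV** (25) pseudo division with a bound.
Proof. Induction on `n` (`A` with `natDegree ≤ n`, coefficients `≤ M`). If `n < d`: `q = 0`, `r = A` (the exponent `n + 1 - d` is `0`).
If `n ≥ d`: `A1 = C g * A - C (A.coeff n) * X ^ (n - d) * G`, `g = G.leadingCoeff`, has degree `≤ n - 1` (or `A1` is handled by the bound on
`natDegree` with `n - 1`; for `n = 0 = d` it is `0`: treat `d ≥ 1`) and coefficients `≤ H M + M H = 2 H M`; apply the induction hypothesis. -/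
def PDV_stmt : Prop :=
  ∀ (d : ℕ) (H : ℤ) (G : ℤ[X]), 1 ≤ d → 1 ≤ H → G.natDegree = d → (∀ i, |G.coeff i| ≤ H) →
    ∀ (n : ℕ) (M : ℤ) (A : ℤ[X]), A.natDegree ≤ n → (∀ i, |A.coeff i| ≤ M) →
      ∃ q r : ℤ[X], C (G.leadingCoeff ^ (n + 1 - d)) * A = q * G + r ∧ r.natDegree < d ∧
        ∀ i, |r.coeff i| ≤ (2 * H) ^ (n + 1 - d) * M

/-- **POL** (45) a polynomial value dividing `X ^ (2 ^ J) + 1`.
Proof. `E = 2 ^ J`, `Φ = x ^ E + 1`. For the constant take `Cst` large in terms of `E, d` only, e.g. `Cst = 4 * (E + d + 3)`, with `H ≥ 2 (d + 2)` ensured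
by `2 ≤ H` and a larger power. `2 ^ s f = G (X)`, `|G (X)| ≥ X ^ d - d H X ^ (d - 1) ≥ X ^ d / 2`, so `|f| ≥ X ^ d / (2 H)`; in particular `f ≠ 0`.
(a) `d > E`: `|f| > X ^ E + 1`, so `f` does not divide. (b) `1 ≤ d ≤ E`: PDV with `n = E, M = 1`: `g ^ (E + 1 - d) Φ = q G + r`. `f` divides `Φ (X)` and `G (X)`, hence `r (X)`;
`|r (X)| ≤ d (2 H) ^ (E + 1) X ^ (d - 1) < X ^ d / (2 H) ≤ |f|`, so `r (X) = 0`. If `r ≠ 0` its leading term dominates:
`|r (X)| ≥ X ^ e - (2 H) ^ (E + 1) e X ^ (e - 1) > 0`: so `r = 0`. Hence `G ∣ C (g ^ _) * Φ` over the integers, so over the rationals `G ∣ Φ`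
(map to `ℚ[X]`), `Φ = cyclotomic (2 ^ (J + 1))` is irreducible over the rationals (`Polynomial.cyclotomic_prime_pow_eq_geom_sum` or
`cyclotomic_prime_pow_mul_X_pow_sub_one` and `Polynomial.cyclotomic.irreducible_rat`), `natDegree G ≥ 1`; so `Φ` is an associate of `G`
over the rationals: `d = E` and `G = C g * Φ` (leading coefficients; injectivity of the map `ℤ[X] → ℚ[X]`). So `2 ^ s f = g (X ^ E + 1)`. With `X ^ E + 1 = f h`:
`2 ^ s = g h`, so `h` divides a power of `2` and the odd number `X ^ E + 1` (`X` even), `h = 1` or `-1`. -/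
def POL_stmt : Prop :=
  ∀ (J d : ℕ), 1 ≤ d → ∃ Cst : ℕ, ∀ (H X : ℤ), 2 ≤ H → H ^ Cst ≤ X → Even X →
    ∀ B : ℕ → ℤ, B d ≠ 0 → (∀ c ≤ d, |B c| ≤ H) → ∀ (s : ℕ) (f : ℤ), 2 ^ s ≤ H →
      2 ^ s * f = ∑ c ∈ Finset.range (d + 1), B c * X ^ c →
      f ∣ X ^ (2 ^ J) + 1 → |f| = X ^ (2 ^ J) + 1

/-- **NDV** (25) every function of a level is single exponential or eventually no nontrivial divisor.
Proof. If `|f m| ≤ 2 ^ (2 ^ m) + 1` does not hold for infinitely many `m`, then eventually `|f m| > F m`, so `f m` does not divide `F m`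
(`Int.le_of_dvd`, `F m > 0`). Otherwise EXP and GRP: `SingleExp f`, or `PolyInX J f`; in the second case for all large `m ≥ J`: POL with `H = 2 ^ (m ^ K)`,
`X = 2 ^ (2 ^ (m - J))`, `X ^ (2 ^ J) = 2 ^ (2 ^ m)`; the condition `H ^ Cst ≤ X` is `Cst * m ^ K ≤ 2 ^ (m - J)`, true eventually. -/
def NDV_stmt : Prop :=
  ∀ (k : ℕ) (f : ℕ → ℤ), Lev k f → SingleExp f ∨
    ∀ᶠ m : ℕ in atTop, f m ∣ 2 ^ (2 ^ m) + 1 → |f m| = 2 ^ (2 ^ m) + 1

/-- **TAM** (30) single exponential sequences are periodic modulo primes.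
Proof. Let `M ≥ 2` be such that for `m ≥ M` the formula for `f m` and all the inequalities `0 ≤ Q (m)` hold. `q > M` prime, so odd; `T = q * (q - 1)`.
`p (m + T) = p (m)` modulo `q` (`Polynomial.eval` and `Int.ModEq`, e.g. `Polynomial.sub_dvd_eval_sub`); `Q (m + T) = Q (m)` modulo `q - 1` (same lemma), both are `≥ 0`,
so `2 ^ Q (m + T) = 2 ^ Q (m)` modulo `q` by Fermat (`ZMod.pow_card_sub_one_eq_one`, `2 ≠ 0` in `ZMod q`). -/
def TAM_stmt : Prop := ∀ f : ℕ → ℤ, SingleExp f → PeriodicModPrimes f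

/-- the property of the final theorem for one sequence -/
def Kill (f : ℕ → ℤ) : Prop :=
  ∀ a d : ℕ, 0 < d → ∃ b e : ℕ, 0 < e ∧ (∀ j : ℕ, ∃ i : ℕ, b + e * j = a + d * i) ∧
    ∀ j : ℕ, f (b + e * j) ∣ 2 ^ (2 ^ (b + e * j)) + 1 →
      |f (b + e * j)| = 1 ∨ |f (b + e * j)| = 2 ^ (2 ^ (b + e * j)) + 1

/-- **KIL** (35) periodic modulo primes implies `Kill`; eventually no divisor implies `Kill`.
Proof. Second part: start the progression beyond the bound. First part: let `M` be the constant of `PeriodicModPrimes` (enlarge: `M ≥ 1`). If for no `i` with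
`m = a + d i ≥ M`, is `f m` a divisor of `F m` with `|f m| ≠ 1`: take `b = a + d * M`, `e = d`. Otherwise let
`m1 = a + d i ≥ M` be such; `|f m1| ≠ 1`, so there is a prime `q` dividing `f m1` (`Int.natAbs`, `Nat.exists_prime_and_dvd`), `q ∣ F m1`. The order of `2` modulo
`q` is `2 ^ (m1 + 1)`, so `q > 2 ^ (m1 + 1) - 1 ≥ M` (or `Nat.Fermat` lemmas of Mathlib: `q = k 2 ^ (m1 + 1) + 1`; or: `q > m1` as `q - 1 ≥ 2 ^ (m1 + 1)` divides).
Let `T` be the period for `q`; `b = m1 + d * T`, `e = d * T`. All `m = b + e j` are `≥ M`, `= m1` modulo `T`, so `q ∣ f m` (induction on the number of periods).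
If `f m ∣ F m` then `q ∣ F m` with `m > m1`; but `F m1` and `F m` are coprime (`Nat.coprime_fermatNumber_fermatNumber`), contradiction. -/
def KIL_stmt : Prop :=
  (∀ f : ℕ → ℤ, PeriodicModPrimes f → Kill f) ∧
  ∀ f : ℕ → ℤ, (∀ᶠ m : ℕ in atTop, f m ∣ 2 ^ (2 ^ m) + 1 → |f m| = 2 ^ (2 ^ m) + 1) → Kill f

/-- **FIN** (25) the final theorem.
Proof. Every member of `A` has `Kill` : periodic: KIL; eventually a formula `t`: FRM gives a level of `t.eval`, LVA (congruence) the same level for the sequence, NDV, TAM, KIL.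
Then induction on the list: apply `Kill` of the head inside the progression found for the tail (or first head, then tail: the progression `b + e j` is a
progression `a + d i`, and a progression inside `b + e j` keeps the property). -/
def FIN_stmt : Prop :=
  ∀ A : List (ℕ → ℤ), (∀ f ∈ A, PeriodicModPrimes f ∨ ∃ t : Formula, ∀ᶠ m : ℕ in atTop, f m = t.eval m) →
    ∀ a d : ℕ, 0 < d → ∃ b e : ℕ, 0 < e ∧ (∀ j : ℕ, ∃ i : ℕ, b + e * j = a + d * i) ∧
      ∀ f ∈ A, ∀ j : ℕ, f (b + e * j) ∣ 2 ^ (2 ^ (b + e * j)) + 1 →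
        |f (b + e * j)| = 1 ∨ |f (b + e * j)| = 2 ^ (2 ^ (b + e * j)) + 1

end Pool.Agent.NoFormula
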