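import Pool.Agent.helper36.NF.Spec
import Pool.Agent.helper36.NF.Defs

/-!
# No formula for a divisor of a Fermat number: formulas with case distinction, first order form

`Fml` = formulas with `+, -, *, 2 ^ ( )` and the case distinction `if 0 ≤ s then t else u`.
First order form: language with `0, 1, -, +, *, 2 ^ ( ), ite, <`, structure on the integers. The set of all
UNIVERSAL sentences true in the integers does not imply the sentence
`for all m ≥ N there are x, y > 1 with x * y = 2 ^ (2 ^ m) + 1`, for any `N`; for `N = 5` this sentence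
is true in the integers if and only if the only Fermat primes are `3, 5, 17, 257, 65537`.
-/

set_option autoImplicit false

open Polynomial Filter FirstOrder FirstOrder.Language

namespace Pool.Agent.NoFormula

/-- **FR2** (20) every formula (with case distinction) is in a level.
Proof. Induction on the formula; `var`: the polynomial `X`; `const`: `C c`; `add, sub, mul`: go up to the
larger level by monotonicity (LVA, iterated) and use closure. `pow2 s`: `s` in `Lev k`, DCH: if `s` is
eventually `c`: the constant polynomial `2 ^ c.toNat`; if `s ≥ m - C`: eventually `s ≥ 0`, so `Lev (k + 1)` with the list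
`[(1, s)]`; if `s ≤ C - m`: eventually `toNat = 0` and the value is `1`. `ite s t u`: by DCH eventually `0 ≤ s` or eventually
`s < 0`, so the value is eventually that of `t` or eventually that of `u` (congruence in LVA). -/
def FR2_stmt : Prop := ∀ t : Fml, ∃ k, Lev k t.eval

/-- **FN2** (25) the final theorem.
Proof. Every member of `A` has `Kill` : periodic: KIL; eventually a formula `t`: FR2 gives a level of `t.eval`, LVA (congruence) the same level for the sequence, NDV, TAM, KIL.
Then induction on the list: apply `Kill` of the head inside the progression found for the tail (or first head, then tail: the progression `b + e j` is a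
progression `a + d i`, and a progression inside `b + e j` keeps the property). -/
def FN2_stmt : Prop :=
  ∀ A : List (ℕ → ℤ), (∀ f ∈ A, PeriodicModPrimes f ∨ ∃ t : Fml, ∀ᶠ m : ℕ in atTop, f m = t.eval m) →
    ∀ a d : ℕ, 0 < d → ∃ b e : ℕ, 0 < e ∧ (∀ j : ℕ, ∃ i : ℕ, b + e * j = a + d * i) ∧
      ∀ f ∈ A, ∀ j : ℕ, f (b + e * j) ∣ 2 ^ (2 ^ (b + e * j)) + 1 →
        |f (b + e * j)| = 1 ∨ |f (b + e * j)| = 2 ^ (2 ^ (b + e * j)) + 1

/-- **FOQ** (20) meaning of the sentence. Proof: `Sentence.Realize`, `BoundedFormula.realize_all, realize_ex, realize_imp, realize_inf,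
realize_not, realize_bdEqual, realize_rel`, value of the terms (`tNum N` has value `N`, by induction). -/
def FOQ_stmt : Prop :=
  (∀ N : ℕ, ℤ ⊨ compositeFrom N ↔ ∀ m : ℤ, (N : ℤ) ≤ m → ∃ x y : ℤ, 1 < x ∧ 1 < y ∧
    x * y = 2 ^ ((2 : ℤ) ^ m.toNat).toNat + 1) ∧
  (ℤ ⊨ compositeFrom 5 ↔ ∀ m : ℕ, Nat.Prime (Nat.fermatNumber m) → m ≤ 4)

/-- **FOT** (15) terms in the elements of a family of formulas are formulas.
Proof. Induction on the term: for every term `t` over variables `β` and every assignment of formulas to
the variables there is one formula `g` with `t.realize (fun b => (v b).eval m) = g.eval m` for all `m`. (`neg s`: `0 - s`.) -/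
def FOT_stmt : Prop :=
  ∀ (β : Type) (v : β → Fml) (t : Lx.Term β), ∃ g : Fml, ∀ m : ℕ, t.realize (fun b => (v b).eval m) = g.eval m

/-- **FOU** (25) the ultrafilter.
Proof. For a formula `g` let `Z g` be the set of the `m` with `g m ∣ F m → |g m| = 1 ∨ |g m| = F m`. Finite intersections of sets `Z g` are
infinite (FN2 with `a = 0, d = 1`), so the filter generated by them and the cofinite filter is proper (`Filter.NeBot`, e.g.
`Ultrafilter.exists_ultrafilter_of_finite_inter_nonempty` for the family of all `Z g ∩ {m | n ≤ m}`), take an ultrafilter below. -/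
def FOU_stmt : Prop :=
  ∃ U : Ultrafilter ℕ, (∀ n : ℕ, ∀ᶠ m in (U : Filter ℕ), n ≤ m) ∧ ∀ g : Fml, ∀ᶠ m in (U : Filter ℕ),
    g.eval m ∣ 2 ^ (2 ^ m) + 1 → |g.eval m| = 1 ∨ |g.eval m| = 2 ^ (2 ^ m) + 1

/-- **FOM** (45) the main theorem in first order form.
Proof. `U` from FOU, `P = (U : Filter ℕ).Product (fun _ => ℤ)` with its `Lx`-structure (`Ultraproduct.structure`), `x0 : P` the class of `m ↦ (m : ℤ)`,
`S = closure Lx {x0}`. `P ⊨ UnivTh` by `Ultraproduct.sentence_realize`, `UnivTh.IsUniversal` by definition, so `S ⊨ UnivTh`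
(`Substructure.models_of_isUniversal`). If `UnivTh ⊨ᵇ compositeFrom N` then `S ⊨ compositeFrom N` (`ModelsBoundedFormula.realize_sentence`,
`S` nonempty). Unfold in `S`: for `m = x0` (in `S`): `x0 < N` is false in `P` (it would say `m < N` for `U`-almost all `m`, value of `tNum N` in `P` is the class of
the constant `N`). So there are `x, y ∈ S` with `1 < x`, `1 < y`, `x * y = 2 ^ (2 ^ x0) + 1` in `P`. By `mem_closure_iff_exists_term` and FOT (variables: the
one point set, assigned `Fml.var`) and `Ultraproduct.term_realize_cast`, `x` and `y` are the classes of `g.eval` and `h.eval`. So for `U`-almost all `m`: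
`1 < g.eval m`, `1 < h.eval m`, `g.eval m * h.eval m = 2 ^ (2 ^ m) + 1` (`((2 : ℤ) ^ m).toNat = 2 ^ m`): a divisor with `1 < g.eval m < F m`, contradiction to FOU. -/
def FOM_stmt : Prop := ∀ N : ℕ, ¬ (UnivTh ⊨ᵇ compositeFrom N)

end Pool.Agent.NoFormula
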