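import Pool.Agent.helper36.NF.SpecB

/-!
# No formula for a divisor of `n ^ n + 1` (MP_a70bdc_nt)

`n ^ n + 1` with `n = 2 ^ (2 ^ s)` is the Fermat number with index `m = s + 2 ^ s`.
-/

set_option autoImplicit false

open Polynomial Filter

namespace Pool.Agent.NoFormula

/-- **RES** (25) `k + 2 ^ k` takes every residue, on a whole progression of `k`.
Proof. Strong induction on `e`; `e = 1` trivial (`b = 0, e' = 1`). `e > 1`, `e = 2 ^ v * o`, `o` odd, `l = orderOf (2 : ZMod o)` (`l = 1` if `o = 1`),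
`1 ≤ l < e`, and `2 ^ (k + l) = 2 ^ k` modulo `e` for all `k ≥ v`. Let `g = gcd(l, e) < e`. By the induction hypothesis for `g` there is `k0 ≥ v`
(in the progression) with `k0 + 2 ^ k0 = r` modulo `g`. Choose `t` with `l * t = r - (k0 + 2 ^ k0)` modulo `e` (possible, the right side is divisible by
`g = gcd(l, e)`). `b = k0 + l * t`, `e' = l * e`: then `2 ^ (b + e' j) = 2 ^ k0` modulo `e` and `b + e' j = k0 + l t` modulo `e`. -/
def RES_stmt : Prop :=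
  ∀ e r : ℕ, 0 < e → ∃ b e' : ℕ, 0 < e' ∧ ∀ j : ℕ, (b + e' * j) + 2 ^ (b + e' * j) ≡ r [MOD e]

/-- **SIS** (20) the theorem for `n ^ n + 1`, `n = 2 ^ (2 ^ s)`, `m = s + 2 ^ s`.
Proof. FN2 with `a = 0, d = 1` gives a progression `b0 + e0 j` of indices `m`. RES with `e = e0`, `r = b0`: a progression of `s` with `s + 2 ^ s = b0` modulo `e0`;
start it later, so that `s + 2 ^ s ≥ b0`; then `s + 2 ^ s = b0 + e0 j` for some `j`. `n ^ n = 2 ^ (2 ^ s * 2 ^ (2 ^ s)) = 2 ^ (2 ^ (s + 2 ^ s))`. -/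
def SIS_stmt : Prop :=
  ∀ A : List (ℕ → ℤ), (∀ f ∈ A, PeriodicModPrimes f ∨ ∃ t : Fml, ∀ᶠ m : ℕ in atTop, f m = t.eval m) →
    ∃ b e : ℕ, 0 < e ∧ ∀ f ∈ A, ∀ j s n m : ℕ, s = b + e * j → n = 2 ^ (2 ^ s) → m = s + 2 ^ s →
      f m ∣ (n : ℤ) ^ n + 1 → |f m| = 1 ∨ |f m| = (n : ℤ) ^ n + 1

end Pool.Agent.NoFormula
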